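import Mathlib
import Pool.Agent.Helper53.HomStmt
import Pool.Agent.Helper53.HomH

set_option autoImplicit false

namespace Pool.Agent.Results.MP_bd1fca_an.DimThree

open Pool.Agent.Helper53.Homology

/-- There is a Banach function algebra whose global dimension and bidimension are both equal
to 3. -/
theorem result : ∃ A : FunctionAlgebra, dg A.carrier = 3 ∧ db A.carrier = 3 :=
  ⟨algFA, dg_alg, db_alg⟩

end Pool.Agent.Results.MP_bd1fca_an.DimThree
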